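import Pool.Agent.H634.Main
import Pool.Agent.H634.Sw1
import Pool.Agent.H634.Sw2
import Pool.Agent.H634.Sw3

/-!
# Independent switches over ZF

From the imported files. `LSet` is the language of set theory and `ZF V` says that `V` is a model
of the axioms of ZF. `IsGenericExtension V N` says that `N` is a model of ZF and that `V` is
isomorphic to a transitive substructure `W` of `N` for which there are a notion of forcing `P` in
`W` with a largest element and a filter `G` in `N` that is `W`-generic for `P`, such that every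
element of `N` is the value by `G` of a name in `W`.
-/

namespace Pool.Agent.Results.MP_6baf15_lc.IndependentSwitches

open FirstOrder FirstOrder.Language
open Pool.Agent.Helper672.Plain (LSet Mem)
open Pool.Agent.H635Amen (ZF)
open Pool.Agent.H634

/-- ZF proves that the sentence `φ` is a switch: over every generic extension `V₁` of a countable
model `V` of ZF there are generic extensions in which `φ` holds and in which `φ` fails. -/
def IsSwitch (φ : LSet.Sentence) : Prop :=
  ∀ (V V₁ : Type) [LSet.Structure V] [LSet.Structure V₁] [Countable V], ZF V →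
    IsGenericExtension V V₁ →
      (∃ (N : Type) (_ : LSet.Structure N), IsGenericExtension V₁ N ∧ Sentence.Realize N φ) ∧
        ∃ (N : Type) (_ : LSet.Structure N), IsGenericExtension V₁ N ∧ ¬ Sentence.Realize N φ

/-- ZF proves that the sentences `φ i` are independent: over every generic extension `V₁` of a
countable model `V` of ZF and for every `ε` there is a generic extension in which, for each `i`,
`φ i` holds exactly when `ε i` is `true`. -/
def AreIndependent {n : ℕ} (φ : Fin n → LSet.Sentence) : Prop :=
  ∀ (V V₁ : Type) [LSet.Structure V] [LSet.Structure V₁] [Countable V], ZF V →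
    IsGenericExtension V V₁ → ∀ ε : Fin n → Bool,
      ∃ (N : Type) (_ : LSet.Structure N), IsGenericExtension V₁ N ∧
        ∀ i, Sentence.Realize N (φ i) ↔ ε i = true

/-- For every `n` there are `n` sentences that ZF proves to be independent switches. -/
theorem result (n : ℕ) : ∃ φ : Fin n → LSet.Sentence, (∀ i, IsSwitch (φ i)) ∧ AreIndependent φ := by
  have h : ∃ φ : Fin n → LSet.Sentence, AreIndependent φ := by
    let e := Fintype.equivFin (Fin n → Bool)
    have h1 := fun i : Fin n => exists_sentence.{0}
      (fun m => ∃ h : m < Fintype.card (Fin n → Bool), e.symm ⟨m, h⟩ i = true)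
      (Fintype.card (Fin n → Bool))
    choose φ hφ using h1
    refine ⟨φ, fun V V₁ _ _ _ hV hV₁ ε => ?_⟩
    have hc : Countable V₁ := countable_ext hV₁
    obtain ⟨N, sN, W, e', hN, htr, hF, κ, h2, h3⟩ := bounding_top V₁ hV₁.1 (e ε).val
    refine ⟨N, sN, ⟨hN, W, ⟨e'⟩, htr, hF⟩, fun i => (hφ i N).trans ?_⟩
    let _ := hN.toZermelo
    constructor
    · rintro ⟨κ', h4, m, h5, ⟨h6, h7⟩, h8⟩
      rw [bounding_unique hN h4 h2] at h8
      have h9 := Nat.succ_injective (aleph_index hN h8 h3)
      have h10 : (⟨m, h6⟩ : Fin (Fintype.card (Fin n → Bool))) = e ε := Fin.ext h9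
      rw [h10, e.symm_apply_apply] at h7
      exact h7
    · intro h4
      refine ⟨κ, h2, (e ε).val, (e ε).isLt, ⟨(e ε).isLt, ?_⟩, h3⟩
      rw [show (⟨(e ε).val, (e ε).isLt⟩ : Fin (Fintype.card (Fin n → Bool))) = e ε from rfl,
        e.symm_apply_apply]
      exact h4
  obtain ⟨φ, hφ⟩ := h
  refine ⟨φ, fun i V V₁ _ _ _ hV hV₁ => ⟨?_, ?_⟩, hφ⟩
  · obtain ⟨N, sN, h1, h2⟩ := hφ V V₁ hV hV₁ fun _ => true
    exact ⟨N, sN, h1, (h2 i).2 rfl⟩
  · obtain ⟨N, sN, h1, h2⟩ := hφ V V₁ hV hV₁ fun _ => false
    exact ⟨N, sN, h1, fun h3 => Bool.false_ne_true ((h2 i).1 h3)⟩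

end Pool.Agent.Results.MP_6baf15_lc.IndependentSwitches
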